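import Mathlib
import Pool.Agent.Work.MP_4c4335_nt.Flat2
import Pool.Agent.Work.MP_4c4335_nt.Defs

/-!
# Interface for the exponential lower bound of `R_DPV(n, θ)`

Parameters: `m = 8 k` coefficients, `h = L ^ 12` with `L = ⌈log k⌉`, `D = 4 h` relevant Taylor
coefficients, scales `sc k j = 2 ^ (-(k / h + j))`.
-/

namespace Pool.Agent.Work.MP_4c4335_nt_helper98

open Finset Polynomial Filter Real MeasureTheory
open Pool.Agent.Work.MP_4c4335_nt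

/-- half of the number of Taylor coefficients which are controlled -/
noncomputable def hh (k : ℕ) : ℕ := (LL k) ^ 12

/-- the number of relevant Taylor coefficients -/
noncomputable def DD (k : ℕ) : ℕ := 4 * hh k

/-- the dyadic scales -/
noncomputable def sc (k j : ℕ) : ℝ := (1 / 2 : ℝ) ^ (k / hh k + j)

/-- admissible polynomials: `8 k` coefficients of size at most `B` -/
def Adm (k B : ℕ) (P : ℤ[X]) : Prop := P.natDegree < 8 * k ∧ ∀ i, |P.coeff i| ≤ (B : ℤ)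

/-- `P` is at most `t` in absolute value on the arc of radius `s` around `θ` -/
def Sm (P : ℤ[X]) (θ s t : ℝ) : Prop := ∀ x : ℝ, |x| ≤ s → ‖ev P (zpt (θ + x))‖ ≤ t

/-- the gap set: no admissible polynomial has absolute value in `(exp (-(k+1)), exp (-k)]` -/
def GS (k B : ℕ) : Set ℝ := {θ | ∀ P : ℤ[X], Adm k B P →
  ¬ (Real.exp (-((k : ℝ) + 1)) < ‖ev P (zpt θ)‖ ∧ ‖ev P (zpt θ)‖ ≤ Real.exp (-(k : ℝ)))}

/-- the scale `j` is active at `θ` -/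
def Act (k B : ℕ) (θ : ℝ) (j : ℕ) : Prop := ∃ P : ℤ[X], Adm k B P ∧
  Sm P θ (sc k (j + 1)) (Real.exp (-(k : ℝ))) ∧ ¬ Sm P θ (sc k j) (Real.exp (-(k : ℝ)))

/-- Block NF: some large box of coefficients contains no flat difference. -/
def Stmt_NF : Prop := ∀ c : ℝ, 0 < c → c ≤ 1 → ∃ B : ℕ, 1 ≤ B ∧ ∀ᶠ k : ℕ in atTop, ∀ z : ℂ,
  DioZ c z → ∃ s b : ℕ, s ≤ 8 * k ∧ 1 ≤ b ∧ b ≤ B ∧ Real.exp (3 * (k : ℝ)) < ((b : ℝ) + 1) ^ s ∧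
    ∀ F : ℤ[X], F ≠ 0 → F.natDegree < s → (∀ i, |F.coeff i| ≤ (b : ℤ)) →
      ∃ i < 2 * hh k, Real.exp (-(19 / 20 * (k : ℝ))) * (Real.exp ((k : ℝ) / hh k)) ^ i
        < ‖(taylor z (F.map (Int.castRingHom ℂ))).coeff i‖

/-- Block CR: an active scale at a point of the gap set produces a hole of the gap set. -/
def Stmt_CR : Prop := ∀ B : ℕ, 1 ≤ B → ∀ᶠ k : ℕ in atTop, ∀ θ ∈ GS k B, ∀ j : ℕ, Act k B θ j →
  ∃ α β : ℝ, θ - sc k j ≤ α ∧ β ≤ θ + sc k j ∧ sc k j / (32 * (DD k : ℝ) ^ 2) ≤ β - α ∧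
    ∀ x : ℝ, α < x → x < β → x ∉ GS k B

/-- Block PO: mean porosity. -/
def Stmt_PO : Prop := ∀ (S : Set ℝ) (r J b a : ℕ), S ⊆ Set.Icc 0 7 → 3 ≤ r →
  (∀ θ ∈ S, ∃ T : Finset ℕ, a ≤ T.card ∧ (∀ j ∈ T, j < J) ∧ ∀ j ∈ T, ∃ α β : ℝ,
    θ - (1 / 2 : ℝ) ^ (r + j) ≤ α ∧ β ≤ θ + (1 / 2 : ℝ) ^ (r + j) ∧
      (1 / 2 : ℝ) ^ (r + j + b) ≤ β - α ∧ ∀ x : ℝ, α < x → x < β → x ∉ S) →
  volume S ≤ ENNReal.ofReal (32 * Real.exp (-((a : ℝ) / (((b : ℝ) + 8) * 2 ^ (b + 8)))))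

/-- Block FL: a polynomial which is small on the arc of the largest scale is flat. -/
def Stmt_FL : Prop := ∀ B : ℕ, 1 ≤ B → ∀ᶠ k : ℕ in atTop, ∀ (θ : ℝ) (P : ℤ[X]), Adm k B P →
  Sm P θ (sc k 0) (Real.exp (-(k : ℝ))) → ∀ i < 2 * hh k,
    ‖(taylor (zpt θ) (P.map (Int.castRingHom ℂ))).coeff i‖ ≤
      Real.exp (-(19 / 20 * (k : ℝ))) * (Real.exp ((k : ℝ) / hh k)) ^ i

/-- Block PK: if there are few active scales, every large box of coefficients contains a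
difference which is small at the largest scale. -/
def Stmt_PK : Prop := ∀ B : ℕ, 1 ≤ B → ∀ᶠ k : ℕ in atTop, ∀ (θ : ℝ) (s b : ℕ), s ≤ 8 * k →
  1 ≤ b → b ≤ B → Real.exp (3 * (k : ℝ)) < ((b : ℝ) + 1) ^ s →
  (∀ T : Finset ℕ, (∀ j ∈ T, j < 4 * k) → (∀ j ∈ T, Act k B θ j) →
    (T.card : ℝ) * (LL k : ℝ) ^ 26 ≤ k) →
  ∃ F : ℤ[X], F ≠ 0 ∧ F.natDegree < s ∧ (∀ i, |F.coeff i| ≤ (b : ℤ)) ∧
    Sm F θ (sc k 0) (Real.exp (-(k : ℝ)))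

end Pool.Agent.Work.MP_4c4335_nt_helper98
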