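import Mathlib
import Pool.Agent.Work.MP_4c4335_nt_helper98.Interface

/-!
# Interface of the last step
-/

namespace Pool.Agent.Work.MP_4c4335_nt_helper98

open Finset Polynomial Filter Real MeasureTheory
open Pool.Agent.Work.MP_4c4335_nt

/-- Block AE: for almost every angle all windows `(exp (-(k+1)), exp (-k)]` are hit. -/
def Stmt_AE : Prop := ∀ᵐ θ : ℝ, θ ∈ Set.Icc (0:ℝ) 7 → ∃ c : ℝ, 0 < c ∧ DioZ c (zpt θ) ∧
    ∃ B : ℕ, 1 ≤ B ∧ ∀ᶠ k : ℕ in atTop, ∃ P : ℤ[X], Adm k B P ∧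
      Real.exp (-((k:ℝ) + 1)) < ‖ev P (zpt θ)‖ ∧ ‖ev P (zpt θ)‖ ≤ Real.exp (-(k:ℝ))

/-- Block FIN: the final answer from the windows. -/
def Stmt_FIN : Prop := Stmt_AE →
  ∀ᵐ θ ∂(volume.restrict (Set.Ico (0:ℝ) (2 * Real.pi))), ∃ c : ℝ, 0 < c ∧
    ∀ᶠ n : ℕ in atTop, Real.exp (c * n) ≤ RDPV n θ

end Pool.Agent.Work.MP_4c4335_nt_helper98
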