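import Mathlib
import Pool.Agent.Work.MP_4c4335_nt.Gap
import Pool.Agent.Work.MP_4c4335_nt_helper98.Interface

/-!
# Interpolation on short arcs
-/

namespace Pool.Agent.Work.MP_4c4335_nt_helper98

open Finset Polynomial Filter Real MeasureTheory
open Pool.Agent.Work.MP_4c4335_nt

/-- the nodes -/
noncomputable def nd (D : ℕ) (ρ : ℝ) (i : Fin D) : ℝ := ((i : ℕ) : ℝ) / D * ρ

lemma nd_nonneg {D : ℕ} {ρ : ℝ} (hρ : 0 ≤ ρ) (i : Fin D) : 0 ≤ nd D ρ i := by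
  unfold nd; positivity

lemma nd_le {D : ℕ} {ρ : ℝ} (hρ : 0 ≤ ρ) (i : Fin D) : nd D ρ i ≤ ρ := by
  unfold nd
  have hD : (0:ℝ) < D := by
    have : 0 < D := i.pos
    exact_mod_cast this
  have : ((i : ℕ) : ℝ) / D ≤ 1 := by
    rw [div_le_one hD]
    exact_mod_cast i.2.le
  nlinarith

lemma abs_nd_le {D : ℕ} {ρ : ℝ} (hρ : 0 ≤ ρ) (i : Fin D) : |nd D ρ i| ≤ ρ := by
  rw [abs_of_nonneg (nd_nonneg hρ i)]; exact nd_le hρ i

lemma nd_sep {D : ℕ} {ρ : ℝ} (hρ : 0 ≤ ρ) {i j : Fin D} (hij : i ≠ j) :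
    ρ / D ≤ |nd D ρ i - nd D ρ j| := by
  have hD : (0:ℝ) < D := by
    have : 0 < D := i.pos
    exact_mod_cast this
  have h1 : nd D ρ i - nd D ρ j = (((i : ℕ) : ℝ) - ((j : ℕ) : ℝ)) * (ρ / D) := by
    unfold nd; ring
  have h2 : (1:ℝ) ≤ |((i : ℕ) : ℝ) - ((j : ℕ) : ℝ)| := by
    have h3 : ((i:ℕ):ℤ) - ((j:ℕ):ℤ) ≠ 0 := by
      intro h
      apply hij
      ext
      omega
    have h4 := Int.one_le_abs h3
    exact_mod_cast h4
  rw [h1, abs_mul, abs_of_nonneg (by positivity : 0 ≤ ρ / D)]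
  have : 0 ≤ ρ / D := by positivity
  nlinarith

/-- Interpolation on an arc: small values at the nodes give small Taylor coefficients. -/
lemma arc_interp {m D : ℕ} (hD1 : 1 ≤ D) (hDm : D ≤ m) {B : ℝ} {ρ ε : ℝ} (hρ0 : 0 < ρ)
    (hmρ : (m:ℝ) * ρ ≤ 1) {P : ℤ[X]} (hdeg : P.natDegree < m)
    (hB : ∀ i, |(P.coeff i : ℝ)| ≤ B) {θ : ℝ}
    (hv : ∀ i : Fin D, ‖ev P (zpt (θ + nd D ρ i))‖ ≤ ε) :
    pn D ρ (taylor (zpt θ) (P.map (Int.castRingHom ℂ))) ≤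
      D * ((ε + m * (m * B * ((m:ℝ) * ρ) ^ D)) * (4 * D) ^ (D - 1)) := by
  set z := zpt θ with hz
  set Q : ℂ[X] := taylor z (P.map (Int.castRingHom ℂ)) with hQ
  have hB0 : 0 ≤ B := (abs_nonneg _).trans (hB 0)
  have hz1 : ‖z‖ = 1 := norm_zpt θ
  have hQdeg : Q.natDegree < m := by
    rw [hQ, natDegree_taylor]; exact lt_of_le_of_lt natDegree_map_le hdeg
  have hQc : ∀ i, ‖Q.coeff i‖ ≤ m * B * (m:ℝ) ^ i := fun i => taylor_bound hdeg hB hz1 i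
  have hQev : ∀ w, Q.eval w = ev P (w + z) := by
    intro w; rw [hQ, taylor_eval, ev_eq_eval]
  have hDR : (0:ℝ) < D := by exact_mod_cast hD1
  have hm1 : (1:ℝ) ≤ m := by exact_mod_cast (by omega : 1 ≤ m)
  have hρ1 : ρ ≤ 1 := by nlinarith
  have hw : ∀ i : Fin D, ‖zpt (θ + nd D ρ i) - z‖ ≤ ρ := by
    intro i
    refine (chord_le _ _).trans ?_
    rw [add_sub_cancel_left]
    exact abs_nd_le hρ0.le i
  have hint := interp (D := D) (trunc D Q) (trunc_degree D Q)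
    (fun i => zpt (θ + nd D ρ i) - z) (ρ := ρ) (σ := ρ / (2 * D))
    (ε := ε + m * (m * B * ((m:ℝ) * ρ) ^ D)) hρ0.le hw (by positivity)
    (by
      intro i j hij
      have e1 : zpt (θ + nd D ρ i) - z - (zpt (θ + nd D ρ j) - z)
          = zpt (θ + nd D ρ i) - zpt (θ + nd D ρ j) := by ring
      rw [e1]
      have e0 : (θ + nd D ρ i) - (θ + nd D ρ j) = nd D ρ i - nd D ρ j := by ring
      have e2 : |(θ + nd D ρ i) - (θ + nd D ρ j)| ≤ 2 := by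
        rw [e0]
        have a1 := nd_nonneg hρ0.le i
        have a2 := nd_nonneg hρ0.le j
        have a3 := nd_le hρ0.le i
        have a4 := nd_le hρ0.le j
        rw [abs_le]; constructor <;> linarith
      have e3 := chord_ge e2
      rw [e0] at e3
      have e4 := nd_sep hρ0.le hij
      have e5 : ρ / (2 * D) = ρ / D / 2 := by field_simp
      rw [e5]
      linarith)
    (by
      intro i
      have ht := tail_bound (D := D) hDm hB0 hρ0.le hmρ hQdeg hQc (hw i)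
      have hv' : Q.eval (zpt (θ + nd D ρ i) - z) = ev P (zpt (θ + nd D ρ i)) := by
        rw [hQev]; congr 1; ring
      rw [hv'] at ht
      have h1 := hv i
      calc ‖(trunc D Q).eval (zpt (θ + nd D ρ i) - z)‖
          = ‖ev P (zpt (θ + nd D ρ i)) - (ev P (zpt (θ + nd D ρ i))
              - (trunc D Q).eval (zpt (θ + nd D ρ i) - z))‖ := by rw [sub_sub_cancel]
        _ ≤ _ := (norm_sub_le _ _).trans (add_le_add h1 ht))
  rw [pn_trunc] at hint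
  have hratio : 2 * ρ / (ρ / (2 * D)) = 4 * D := by
    field_simp; ring
  rw [hratio] at hint
  exact hint

/-- Values on an arc from the Taylor coefficients. -/
lemma arc_value {m D : ℕ} (hDm : D ≤ m) {B : ℝ} {ρ : ℝ} (hρ0 : 0 ≤ ρ)
    (hmρ : (m:ℝ) * ρ ≤ 1) {P : ℤ[X]} (hdeg : P.natDegree < m)
    (hB : ∀ i, |(P.coeff i : ℝ)| ≤ B) {θ x : ℝ} (hx : |x| ≤ ρ) :
    ‖ev P (zpt (θ + x))‖ ≤ pn D ρ (taylor (zpt θ) (P.map (Int.castRingHom ℂ)))
      + m * (m * B * ((m:ℝ) * ρ) ^ D) := by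
  set z := zpt θ with hz
  set Q : ℂ[X] := taylor z (P.map (Int.castRingHom ℂ)) with hQ
  have hB0 : 0 ≤ B := (abs_nonneg _).trans (hB 0)
  have hz1 : ‖z‖ = 1 := norm_zpt θ
  have hQdeg : Q.natDegree < m := by
    rw [hQ, natDegree_taylor]; exact lt_of_le_of_lt natDegree_map_le hdeg
  have hQc : ∀ i, ‖Q.coeff i‖ ≤ m * B * (m:ℝ) ^ i := fun i => taylor_bound hdeg hB hz1 i
  have hQev : ∀ w, Q.eval w = ev P (w + z) := by
    intro w; rw [hQ, taylor_eval, ev_eq_eval]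
  have hw : ‖zpt (θ + x) - z‖ ≤ ρ := by
    refine (chord_le _ _).trans ?_
    rw [add_sub_cancel_left]
    exact hx
  have ht := tail_bound (D := D) hDm hB0 hρ0 hmρ hQdeg hQc hw
  have hv : Q.eval (zpt (θ + x) - z) = ev P (zpt (θ + x)) := by
    rw [hQev]; congr 1; ring
  rw [hv] at ht
  have h7 := norm_trunc_eval_le (D := D) Q hw
  calc ‖ev P (zpt (θ + x))‖ = ‖(ev P (zpt (θ + x)) - (trunc D Q).eval (zpt (θ + x) - z))
            + (trunc D Q).eval (zpt (θ + x) - z)‖ := by rw [sub_add_cancel]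
    _ ≤ ‖ev P (zpt (θ + x)) - (trunc D Q).eval (zpt (θ + x) - z)‖
            + ‖(trunc D Q).eval (zpt (θ + x) - z)‖ := norm_add_le _ _
    _ ≤ _ := by linarith

lemma pn_double (D : ℕ) {ρ : ℝ} (hρ : 0 ≤ ρ) (Q : ℂ[X]) : pn D (2 * ρ) Q ≤ 2 ^ D * pn D ρ Q := by
  unfold pn
  rw [Finset.mul_sum]
  apply Finset.sum_le_sum
  intro i hi
  rw [Finset.mem_range] at hi
  rw [mul_pow]
  have h1 : (2:ℝ) ^ i ≤ 2 ^ D := pow_le_pow_right₀ (by norm_num) hi.le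
  calc ‖Q.coeff i‖ * (2 ^ i * ρ ^ i) = 2 ^ i * (‖Q.coeff i‖ * ρ ^ i) := by ring
    _ ≤ 2 ^ D * (‖Q.coeff i‖ * ρ ^ i) := by gcongr

end Pool.Agent.Work.MP_4c4335_nt_helper98
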