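import Mathlib
import Pool.Agent.Work.MP_4c4335_nt_helper98.Interface

/-!
# Numerical estimates
-/

namespace Pool.Agent.Work.MP_4c4335_nt_helper98

open Finset Polynomial Filter Real MeasureTheory
open Pool.Agent.Work.MP_4c4335_nt

lemma hh_cast (k : ℕ) : (hh k : ℝ) = (LL k : ℝ) ^ 12 := by rw [hh]; push_cast; ring

lemma DD_cast (k : ℕ) : (DD k : ℝ) = 4 * (LL k : ℝ) ^ 12 := by
  rw [DD]; push_cast; rw [hh_cast]

lemma sc_pos (k j : ℕ) : 0 < sc k j := by unfold sc; positivity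

lemma sc_succ (k j : ℕ) : sc k j = 2 * sc k (j + 1) := by
  unfold sc
  rw [← Nat.add_assoc, pow_succ]; ring

lemma sc_le_zero (k j : ℕ) : sc k j ≤ sc k 0 := by
  unfold sc
  apply pow_le_pow_of_le_one (by norm_num) (by norm_num)
  omega

/-- the basic numerical facts -/
structure Num (k B : ℕ) : Prop where
  k100 : (100 : ℝ) ≤ k
  L3 : (100 : ℝ) ≤ LL k
  h1 : 1 ≤ hh k
  D1 : 1 ≤ DD k
  Dm : DD k ≤ 8 * k
  logD : Real.log (8 * (DD k : ℝ)) ≤ LL k
  logm : Real.log (8 * (k : ℝ)) ≤ 2 * LL k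
  big13 : (1000 + 10 * Real.log B) * (LL k : ℝ) ^ 13 ≤ k
  ms : ((8 * k : ℕ) : ℝ) * sc k 0 ≤ 1
  tail : ((8 * k : ℕ) : ℝ) * (((8 * k : ℕ) : ℝ) * B * (((8 * k : ℕ) : ℝ) * sc k 0) ^ (DD k))
    ≤ Real.exp (-(2 * (k : ℝ)))
  powD : 4 * (8 * (DD k : ℝ)) ^ (DD k) ≤ Real.exp ((k : ℝ) / 20)

lemma eventually_num (B : ℕ) (hB : 1 ≤ B) : ∀ᶠ k : ℕ in atTop, Num k B := by
  filter_upwards [eventually_LL_pow_le (1000 + 10 * Real.log B) 13, eventually_le_LL 100,
    eventually_ge_atTop 100, eventually_LL_pow_le 32 12] with k h13 hL hk h12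
  have hk0 : (100:ℝ) ≤ k := by exact_mod_cast hk
  have hkpos : (0:ℝ) < k := by linarith
  set L : ℝ := (LL k : ℝ) with hLd
  have hL0 : 0 < L := by linarith
  have hB0 : (1:ℝ) ≤ B := by exact_mod_cast hB
  have hlB : 0 ≤ Real.log B := Real.log_nonneg hB0
  have hlogk : Real.log k ≤ L := log_le_LL k
  have hh' : (hh k : ℝ) = L ^ 12 := hh_cast k
  have hD' : (DD k : ℝ) = 4 * L ^ 12 := DD_cast k
  have hhpos : (0:ℝ) < hh k := by rw [hh']; positivity
  have hh1 : 1 ≤ hh k := by exact_mod_cast hhpos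
  have hDpos : (0:ℝ) < DD k := by rw [hD']; positivity
  have hD1 : 1 ≤ DD k := by exact_mod_cast hDpos
  have hDm : DD k ≤ 8 * k := by
    have : (DD k : ℝ) ≤ 8 * k := by rw [hD']; linarith
    exact_mod_cast this
  have l2 : Real.log 2 ≤ 0.7 := by linarith [Real.log_two_lt_d9]
  have l2' : 0.69 ≤ Real.log 2 := by linarith [Real.log_two_gt_d9]
  have l8 : Real.log 8 = 3 * Real.log 2 := by
    rw [show (8:ℝ) = 2 ^ 3 by norm_num, Real.log_pow]; norm_num
  have hlogD : Real.log (8 * (DD k : ℝ)) ≤ L := by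
    refine le_trans (Real.log_le_log (by positivity) ?_) hlogk
    rw [hD']; linarith
  have hlogm : Real.log (8 * (k : ℝ)) ≤ 2 * L := by
    rw [Real.log_mul (by norm_num) (by positivity), l8]; linarith
  have hL12 : L ^ 12 ≤ L ^ 13 := pow_le_pow_right₀ (by linarith) (by norm_num)
  have hL1 : L ≤ L ^ 13 := by
    calc L = L ^ 1 := (pow_one _).symm
      _ ≤ L ^ 13 := pow_le_pow_right₀ (by linarith) (by norm_num)
  have hL13 : (1:ℝ) ≤ L ^ 13 := one_le_pow₀ (by linarith)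
  have h13' : 1000 * L ^ 13 ≤ k := by
    refine le_trans ?_ h13
    have : 0 ≤ Real.log B * L ^ 13 := by positivity
    linarith
  have hBk : 10 * Real.log B ≤ k - 1000 * L ^ 13 := by
    have : Real.log B * 1 ≤ Real.log B * L ^ 13 := by gcongr
    linarith
  -- natural division
  have hdiv : (hh k : ℝ) * ((k / hh k : ℕ) : ℝ) ≥ k - hh k := by
    have h1 := Nat.div_add_mod k (hh k)
    have h2 := Nat.mod_lt k hh1
    have h3 : (k:ℝ) = hh k * ((k / hh k : ℕ) : ℝ) + ((k % hh k : ℕ) : ℝ) := by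
      exact_mod_cast h1.symm
    have h4 : ((k % hh k : ℕ) : ℝ) ≤ hh k := by exact_mod_cast h2.le
    linarith
  have hlogs : Real.log (sc k 0) = -(((k / hh k : ℕ) : ℝ) * Real.log 2) := by
    rw [sc, add_zero, Real.log_pow, one_div, Real.log_inv]; ring
  have hq : 6 * L ≤ ((k / hh k : ℕ) : ℝ) := by
    have h1 : (hh k : ℝ) * (6 * L) ≤ (hh k : ℝ) * ((k / hh k : ℕ) : ℝ) := by
      refine le_trans ?_ hdiv.le
      rw [hh']
      have : L ^ 12 * (6 * L) = 6 * L ^ 13 := by ring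
      rw [this]; linarith
    exact le_of_mul_le_mul_left h1 hhpos
  have hms : ((8 * k : ℕ) : ℝ) * sc k 0 ≤ 1 := by
    have hs := sc_pos k 0
    rw [← Real.log_nonpos_iff (by positivity), Real.log_mul (by positivity) (by positivity),
      hlogs]
    push_cast
    nlinarith
  refine ⟨hk0, hL, hh1, hD1, hDm, hlogD, hlogm, h13, hms, ?_, ?_⟩
  · have hs := sc_pos k 0
    have hpos : (0:ℝ) < ((8 * k : ℕ) : ℝ) * (((8 * k : ℕ) : ℝ) * B *
        (((8 * k : ℕ) : ℝ) * sc k 0) ^ (DD k)) := by positivity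
    rw [← Real.log_le_log_iff hpos (Real.exp_pos _), Real.log_exp,
      Real.log_mul (by positivity) (by positivity), Real.log_mul (by positivity) (by positivity),
      Real.log_mul (by positivity) (by positivity), Real.log_pow,
      Real.log_mul (by positivity) (by positivity), hlogs]
    push_cast
    have e1 : (DD k : ℝ) * (Real.log (8 * k) + -(((k / hh k : ℕ) : ℝ) * Real.log 2))
        ≤ 8 * L ^ 13 - 4 * (k - L ^ 12) * 0.69 := by
      have e2 : (DD k : ℝ) * Real.log (8 * k) ≤ 8 * L ^ 13 := by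
        calc (DD k : ℝ) * Real.log (8 * k) ≤ (4 * L ^ 12) * (2 * L) := by
              rw [hD']; gcongr
          _ = 8 * L ^ 13 := by ring
      have e3 : (DD k : ℝ) * (((k / hh k : ℕ) : ℝ) * Real.log 2) ≥ 4 * (k - L ^ 12) * 0.69 := by
        have e4 : (DD k : ℝ) * (((k / hh k : ℕ) : ℝ) * Real.log 2)
            = 4 * ((hh k : ℝ) * ((k / hh k : ℕ) : ℝ)) * Real.log 2 := by
          rw [DD]; push_cast; ring
        rw [e4]
        rw [hh'] at hdiv ⊢
        have e5 : 0 ≤ (k:ℝ) - L ^ 12 := by linarith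
        have e6 : 0 ≤ Real.log 2 := by linarith
        calc 4 * (L ^ 12 * ((k / hh k : ℕ) : ℝ)) * Real.log 2
            ≥ 4 * (k - L ^ 12) * Real.log 2 := by gcongr
          _ ≥ 4 * (k - L ^ 12) * 0.69 := by gcongr
      linarith
    linarith
  · have hpos : (0:ℝ) < 4 * (8 * (DD k : ℝ)) ^ (DD k) := by positivity
    rw [← Real.log_le_log_iff hpos (Real.exp_pos _), Real.log_exp,
      Real.log_mul (by positivity) (by positivity), Real.log_pow]
    have l4 : Real.log 4 = 2 * Real.log 2 := by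
      rw [show (4:ℝ) = 2 ^ 2 by norm_num, Real.log_pow]; norm_num
    have e1 : (DD k : ℝ) * Real.log (8 * (DD k : ℝ)) ≤ 4 * L ^ 13 := by
      calc (DD k : ℝ) * Real.log (8 * (DD k : ℝ)) ≤ (4 * L ^ 12) * L := by
            have e0 : 0 ≤ Real.log (8 * (DD k : ℝ)) := Real.log_nonneg (by
              have : (1:ℝ) ≤ DD k := by exact_mod_cast hD1
              linarith)
            exact mul_le_mul hD'.le hlogD e0 (by positivity)
        _ = 4 * L ^ 13 := by ring
    rw [l4]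
    linarith

end Pool.Agent.Work.MP_4c4335_nt_helper98
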