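import Mathlib
import Pool.Agent.Work.MP_4c4335_nt_helper98.Num
import Pool.Agent.Work.MP_4c4335_nt_helper98.Arc

/-!
# Flatness from smallness on the largest arc; extension from a scale to the next one
-/

namespace Pool.Agent.Work.MP_4c4335_nt_helper98

open Finset Polynomial Filter Real MeasureTheory
open Pool.Agent.Work.MP_4c4335_nt

lemma Adm.coeff_le {k B : ℕ} {P : ℤ[X]} (h : Adm k B P) (i : ℕ) : |(P.coeff i : ℝ)| ≤ (B : ℝ) := by
  have := h.2 i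
  exact_mod_cast this

lemma ms_of_le {k B : ℕ} (hn : Num k B) {ρ : ℝ} (h : ρ ≤ sc k 0) :
    ((8 * k : ℕ) : ℝ) * ρ ≤ 1 := by
  refine le_trans ?_ hn.ms
  gcongr

lemma tail_of_le {k B : ℕ} (hn : Num k B) {ρ : ℝ} (h0 : 0 ≤ ρ) (h : ρ ≤ sc k 0) :
    ((8 * k : ℕ) : ℝ) * (((8 * k : ℕ) : ℝ) * B * (((8 * k : ℕ) : ℝ) * ρ) ^ (DD k))
    ≤ Real.exp (-(2 * (k : ℝ))) := by
  refine le_trans ?_ hn.tail
  gcongr

lemma exp2_le {k B : ℕ} (hn : Num k B) : Real.exp (-(2 * (k : ℝ))) ≤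
    Real.exp (-(k : ℝ)) * (1 / (8 * (4 * (8 * (DD k : ℝ)) ^ (DD k)))) := by
  have h1 := hn.powD
  have hk := hn.k100
  have hD : (1:ℝ) ≤ DD k := by exact_mod_cast hn.D1
  have hpos : (0:ℝ) < 4 * (8 * (DD k : ℝ)) ^ (DD k) := by positivity
  have e1 : Real.exp (-(2 * (k : ℝ))) = Real.exp (-(k : ℝ)) * Real.exp (-(k:ℝ)) := by
    rw [← Real.exp_add]; congr 1; ring
  rw [e1]
  have e2 : Real.exp (-(k:ℝ)) ≤ 1 / (8 * (4 * (8 * (DD k : ℝ)) ^ (DD k))) := by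
    rw [le_div_iff₀ (by positivity)]
    have e3 : (8:ℝ) ≤ Real.exp ((k:ℝ) / 20 + 3) := by
      have := Real.add_one_le_exp ((k:ℝ) / 20 + 3)
      linarith
    calc Real.exp (-(k:ℝ)) * (8 * (4 * (8 * (DD k : ℝ)) ^ (DD k)))
        ≤ Real.exp (-(k:ℝ)) * (Real.exp ((k:ℝ) / 20 + 3) * Real.exp ((k:ℝ) / 20)) := by gcongr
      _ = Real.exp (-(k:ℝ) + ((k:ℝ) / 20 + 3 + (k:ℝ) / 20)) := by
          rw [← Real.exp_add, ← Real.exp_add]
      _ ≤ 1 := by rw [Real.exp_le_one_iff]; linarith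
  have e4 : 0 < Real.exp (-(k:ℝ)) := Real.exp_pos _
  gcongr

/-- A polynomial which is small on the largest arc is flat. -/
lemma flat_of_small {k B : ℕ} (hn : Num k B) {θ : ℝ} {P : ℤ[X]} (hP : Adm k B P)
    (hs : Sm P θ (sc k 0) (Real.exp (-(k : ℝ)))) {i : ℕ} (hi : i < 2 * hh k) :
    ‖(taylor (zpt θ) (P.map (Int.castRingHom ℂ))).coeff i‖ ≤
      Real.exp (-(19 / 20 * (k : ℝ))) * (Real.exp ((k : ℝ) / hh k)) ^ i := by
  set Q : ℂ[X] := taylor (zpt θ) (P.map (Int.castRingHom ℂ)) with hQ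
  set D := DD k with hD
  have hD1R : (1:ℝ) ≤ D := by exact_mod_cast hn.D1
  have hsc := sc_pos k 0
  have hint := arc_interp (m := 8 * k) (D := D) hn.D1 hn.Dm (B := B) (ρ := sc k 0)
    (ε := Real.exp (-(k:ℝ))) hsc hn.ms hP.1 hP.coeff_le (θ := θ)
    (fun i => hs _ (abs_nd_le hsc.le i))
  have ht := hn.tail
  rw [← hD] at ht
  have he2 : Real.exp (-(2 * (k : ℝ))) ≤ Real.exp (-(k:ℝ)) := by
    rw [Real.exp_le_exp]; linarith [hn.k100]
  have hek : 0 < Real.exp (-(k:ℝ)) := Real.exp_pos _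
  have h1 : pn D (sc k 0) Q ≤ Real.exp (-(k:ℝ)) * Real.exp ((k:ℝ) / 20) := by
    refine hint.trans ?_
    have e1 : (4 * (D:ℝ)) ^ (D - 1) * (D:ℝ) ≤ (4 * (D:ℝ)) ^ D := by
      have e2 : (4 * (D:ℝ)) ^ D = (4 * (D:ℝ)) ^ (D - 1) * (4 * (D:ℝ)) := by
        rw [← pow_succ]; congr 1; have := hn.D1; omega
      rw [e2]
      gcongr
      linarith
    calc (D:ℝ) * ((Real.exp (-(k:ℝ)) + ((8 * k : ℕ) : ℝ) * (((8 * k : ℕ) : ℝ) * B *
          (((8 * k : ℕ) : ℝ) * sc k 0) ^ D)) * (4 * (D:ℝ)) ^ (D - 1))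
        ≤ (D:ℝ) * ((Real.exp (-(k:ℝ)) + Real.exp (-(k:ℝ))) * (4 * (D:ℝ)) ^ (D - 1)) := by
          gcongr
          exact ht.trans he2
      _ = 2 * Real.exp (-(k:ℝ)) * ((4 * (D:ℝ)) ^ (D - 1) * D) := by ring
      _ ≤ 2 * Real.exp (-(k:ℝ)) * (4 * (D:ℝ)) ^ D := by gcongr
      _ ≤ 2 * Real.exp (-(k:ℝ)) * (8 * (D:ℝ)) ^ D := by gcongr; linarith
      _ ≤ Real.exp (-(k:ℝ)) * (4 * (8 * (D:ℝ)) ^ D) := by
          have : 0 ≤ (8 * (D:ℝ)) ^ D := by positivity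
          nlinarith
      _ ≤ Real.exp (-(k:ℝ)) * Real.exp ((k:ℝ) / 20) := by
          gcongr
          exact hn.powD
  have hiD : i < D := by rw [hD, DD]; omega
  have h2 : ‖Q.coeff i‖ * (sc k 0) ^ i ≤ pn D (sc k 0) Q := by
    unfold pn
    apply Finset.single_le_sum (f := fun i => ‖Q.coeff i‖ * (sc k 0) ^ i)
      (fun i _ => by positivity) (Finset.mem_range.mpr hiD)
  have h3 : 1 ≤ Real.exp ((k : ℝ) / hh k) * sc k 0 := by
    have e1 : sc k 0 = (2:ℝ)⁻¹ ^ (k / hh k) := by rw [sc, add_zero, one_div]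
    have e2 : (2:ℝ) ^ (k / hh k) ≤ Real.exp ((k:ℝ) / hh k) := by
      have e3 : (2:ℝ) ≤ Real.exp 1 := by linarith [Real.exp_one_gt_d9]
      calc (2:ℝ) ^ (k / hh k) ≤ (Real.exp 1) ^ (k / hh k) := by gcongr
        _ = Real.exp ((k / hh k : ℕ) : ℝ) := by rw [← Real.exp_nat_mul, mul_one]
        _ ≤ _ := by rw [Real.exp_le_exp]; exact Nat.cast_div_le
    rw [e1, inv_pow]
    calc (1:ℝ) = (2:ℝ) ^ (k / hh k) * ((2:ℝ) ^ (k / hh k))⁻¹ := by
          rw [mul_inv_cancel₀ (by positivity)]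
      _ ≤ _ := by gcongr
  have h4 : 1 ≤ (Real.exp ((k : ℝ) / hh k) * sc k 0) ^ i := one_le_pow₀ h3
  have h5 : Real.exp (-(k:ℝ)) * Real.exp ((k:ℝ) / 20) = Real.exp (-(19 / 20 * (k : ℝ))) := by
    rw [← Real.exp_add]; congr 1; ring
  rw [h5] at h1
  calc ‖Q.coeff i‖ = ‖Q.coeff i‖ * 1 := (mul_one _).symm
    _ ≤ ‖Q.coeff i‖ * (Real.exp ((k : ℝ) / hh k) * sc k 0) ^ i := by gcongr
    _ = (‖Q.coeff i‖ * (sc k 0) ^ i) * (Real.exp ((k : ℝ) / hh k)) ^ i := by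
        rw [mul_pow]; ring
    _ ≤ _ := by
        gcongr
        exact h2.trans h1

/-- the precision at the nodes -/
noncomputable def eta (k : ℕ) : ℝ := 1 / (4 * (8 * (DD k : ℝ)) ^ (DD k))

lemma eta_pos {k B : ℕ} (hn : Num k B) : 0 < eta k := by
  have hD : (1:ℝ) ≤ DD k := by exact_mod_cast hn.D1
  unfold eta; positivity

/-- Small values at the nodes of the scale `j + 1` give smallness on the arc of the scale `j`. -/
lemma small_of_nodes {k B : ℕ} (hn : Num k B) {θ : ℝ} {P : ℤ[X]} (hP : Adm k B P) {j : ℕ}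
    (hv : ∀ i : Fin (DD k), ‖ev P (zpt (θ + nd (DD k) (sc k (j + 1)) i))‖ ≤
      Real.exp (-(k : ℝ)) * eta k) :
    Sm P θ (sc k j) (Real.exp (-(k : ℝ))) := by
  intro x hx
  set D := DD k with hD
  have hD1R : (1:ℝ) ≤ D := by exact_mod_cast hn.D1
  have hsc := sc_pos k (j + 1)
  have hsc' := sc_pos k j
  have hsc2 := sc_succ k j
  have hle := sc_le_zero k (j + 1)
  have hle' := sc_le_zero k j
  have hek : 0 < Real.exp (-(k:ℝ)) := Real.exp_pos _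
  have hint := arc_interp (m := 8 * k) (D := D) hn.D1 hn.Dm (B := B) (ρ := sc k (j + 1))
    hsc (ms_of_le hn hle) hP.1 hP.coeff_le (θ := θ) hv
  have hval := arc_value (m := 8 * k) (D := D) hn.Dm (B := B) (ρ := sc k j) hsc'.le
    (ms_of_le hn hle') hP.1 hP.coeff_le (θ := θ) hx
  have hdb := pn_double D hsc.le (taylor (zpt θ) (P.map (Int.castRingHom ℂ)))
  rw [← hsc2] at hdb
  have ht := tail_of_le hn hsc.le hle
  have ht' := tail_of_le hn hsc'.le hle'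
  rw [← hD] at ht ht'
  have he2 := exp2_le hn
  rw [← hD] at he2
  set W : ℝ := (8 * (D:ℝ)) ^ D with hW
  have hWpos : 1 ≤ W := one_le_pow₀ (by linarith)
  have heta : eta k = 1 / (4 * W) := rfl
  have e8 : (1:ℝ) / (8 * (4 * W)) = eta k / 8 := by rw [heta]; field_simp
  rw [e8] at he2
  have hetapos : 0 < eta k := eta_pos hn
  have heta1 : eta k ≤ 1 := by
    rw [heta, div_le_one (by positivity)]; linarith
  have e1 : 2 ^ D * ((4 * (D:ℝ)) ^ (D - 1) * (D:ℝ)) ≤ W := by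
    have e2 : (4 * (D:ℝ)) ^ D = (4 * (D:ℝ)) ^ (D - 1) * (4 * (D:ℝ)) := by
      rw [← pow_succ]; congr 1; have := hn.D1; omega
    have e3 : W = 2 ^ D * (4 * (D:ℝ)) ^ D := by rw [hW, ← mul_pow]; congr 1; ring
    rw [e3, e2]
    gcongr
    linarith
  have h1 : pn D (sc k j) (taylor (zpt θ) (P.map (Int.castRingHom ℂ))) ≤
      Real.exp (-(k:ℝ)) / 2 := by
    refine hdb.trans ?_
    calc (2:ℝ) ^ D * pn D (sc k (j + 1)) (taylor (zpt θ) (P.map (Int.castRingHom ℂ)))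
        ≤ 2 ^ D * (D * ((Real.exp (-(k:ℝ)) * eta k + Real.exp (-(2 * (k:ℝ))))
            * (4 * (D:ℝ)) ^ (D - 1))) := by
          gcongr
          refine hint.trans ?_
          gcongr
      _ = (2 ^ D * ((4 * (D:ℝ)) ^ (D - 1) * (D:ℝ))) *
            (Real.exp (-(k:ℝ)) * eta k + Real.exp (-(2 * (k:ℝ)))) := by ring
      _ ≤ W * (Real.exp (-(k:ℝ)) * eta k + Real.exp (-(k:ℝ)) * (eta k / 8)) := by gcongr
      _ = (W * eta k) * (Real.exp (-(k:ℝ)) * (9 / 8)) := by ring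
      _ = (1 / 4) * (Real.exp (-(k:ℝ)) * (9 / 8)) := by
          congr 1; rw [heta]; field_simp
      _ ≤ Real.exp (-(k:ℝ)) / 2 := by linarith
  have h2 : Real.exp (-(2 * (k:ℝ))) ≤ Real.exp (-(k:ℝ)) / 8 := by
    refine he2.trans ?_
    nlinarith
  linarith

/-- A small value at the centre gives smallness at a very small scale. -/
lemma small_of_center {k B : ℕ} (hn : Num k B)
    (hlast : ((8 * k : ℕ) : ℝ) * (((8 * k : ℕ) : ℝ) * B * (((8 * k : ℕ) : ℝ) * sc k (4 * k)))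
      ≤ Real.exp (-(k : ℝ)) / 2) {θ : ℝ} {P : ℤ[X]} (hP : Adm k B P)
    (hv : ‖ev P (zpt θ)‖ ≤ Real.exp (-(k : ℝ)) / 2) :
    Sm P θ (sc k (4 * k)) (Real.exp (-(k : ℝ))) := by
  intro x hx
  have hsc := sc_pos k (4 * k)
  have hle := sc_le_zero k (4 * k)
  have hk1 : 1 ≤ 8 * k := by
    have : (0:ℝ) < k := by linarith [hn.k100]
    have : 0 < k := by exact_mod_cast this
    omega
  have hval := arc_value (m := 8 * k) (D := 1) hk1 (B := B) (ρ := sc k (4 * k)) hsc.le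
    (ms_of_le hn hle) hP.1 hP.coeff_le (θ := θ) hx
  have h1 : pn 1 (sc k (4 * k)) (taylor (zpt θ) (P.map (Int.castRingHom ℂ)))
      = ‖ev P (zpt θ)‖ := by
    unfold pn
    rw [Finset.sum_range_one, pow_zero, mul_one, taylor_coeff_zero, ev_eq_eval]
  rw [h1, pow_one] at hval
  linarith

theorem FL : Stmt_FL := by
  intro B hB
  filter_upwards [eventually_num B hB] with k hn θ P hP hs i hi
  exact flat_of_small hn hP hs hi

end Pool.Agent.Work.MP_4c4335_nt_helper98
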