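import Mathlib
import Pool.Agent.Work.MP_4c4335_nt_helper98.FL

/-!
# Packing: few active scales give a difference which is small on the largest arc
-/

namespace Pool.Agent.Work.MP_4c4335_nt_helper98

open Finset Polynomial Filter Real MeasureTheory
open Pool.Agent.Work.MP_4c4335_nt

/-- polynomial with coefficients in `{0, ..., b}` -/
noncomputable def pc {s b : ℕ} (c : Fin s → Fin (b + 1)) : ℤ[X] :=
  mkPoly (fun j => ((c j : ℕ) : ℤ))

lemma pc_sub_coeff {s b : ℕ} (c c' : Fin s → Fin (b + 1)) (i : ℕ) :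
    |(pc c - pc c').coeff i| ≤ (b : ℤ) := by
  unfold pc
  rw [mkPoly_sub, mkPoly_coeff]
  split_ifs with h
  · have h1 : (c ⟨i, h⟩ : ℕ) < b + 1 := (c ⟨i, h⟩).2
    have h2 : (c' ⟨i, h⟩ : ℕ) < b + 1 := (c' ⟨i, h⟩).2
    simp only [Pi.sub_apply]
    rw [abs_le]
    constructor <;> omega
  · simp

lemma pc_sub_natDegree {s b : ℕ} (hs : 0 < s) (c c' : Fin s → Fin (b + 1)) :
    (pc c - pc c').natDegree < s := by
  unfold pc
  rw [mkPoly_sub]
  exact mkPoly_natDegree_lt hs _

lemma pc_sub_ne_zero {s b : ℕ} {c c' : Fin s → Fin (b + 1)} (h : c ≠ c') :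
    pc c - pc c' ≠ 0 := by
  unfold pc
  rw [mkPoly_sub]
  apply mkPoly_ne_zero
  intro h0
  apply h
  ext j
  have := congrFun h0 j
  simp only [Pi.sub_apply, Pi.zero_apply] at this
  omega

lemma pc_sub_adm {s b k B : ℕ} (hs : 0 < s) (hsk : s ≤ 8 * k) (hb : b ≤ B)
    (c c' : Fin s → Fin (b + 1)) : Adm k B (pc c - pc c') := by
  refine ⟨lt_of_lt_of_le (pc_sub_natDegree hs c c') hsk, fun i => ?_⟩
  exact (pc_sub_coeff c c' i).trans (by exact_mod_cast hb)

/-- `A` is separated at the scale `j` -/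
def Sep {s b : ℕ} (k : ℕ) (θ : ℝ) (j : ℕ) (A : Finset (Fin s → Fin (b + 1))) : Prop :=
  ∀ c ∈ A, ∀ c' ∈ A, c ≠ c' → ¬ Sm (pc c - pc c') θ (sc k j) (Real.exp (-(k : ℝ)))

lemma sep_inactive {s b k B : ℕ} (hs : 0 < s) (hsk : s ≤ 8 * k) (hb : b ≤ B) {θ : ℝ} {j : ℕ}
    (hact : ¬ Act k B θ j) {A : Finset (Fin s → Fin (b + 1))} (hA : Sep k θ j A) :
    Sep k θ (j + 1) A := by
  intro c hc c' hc' hne hsm
  exact hact ⟨pc c - pc c', pc_sub_adm hs hsk hb c c', hsm, hA c hc c' hc' hne⟩

/-- the loss at an active scale -/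
noncomputable def K0 (k : ℕ) : ℝ := (49 * (1 / eta k) ^ 2) ^ (DD k)

lemma K0_ge_one {k B : ℕ} (hn : Num k B) : 1 ≤ K0 k := by
  have h1 := eta_pos hn
  have hD : (1:ℝ) ≤ DD k := by exact_mod_cast hn.D1
  have h2 : (1:ℝ) ≤ 1 / eta k := by
    have : eta k ≤ 1 := by
      unfold eta
      rw [div_le_one (by positivity)]
      have : (1:ℝ) ≤ (8 * (DD k : ℝ)) ^ (DD k) := one_le_pow₀ (by linarith)
      linarith
    rw [le_div_iff₀ h1]; linarith
  unfold K0
  apply one_le_pow₀
  nlinarith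

/-- the elements of a separated set which are close to a given one at the next scale -/
lemma fiber_bound {s b k B : ℕ} (hn : Num k B) (hs : 0 < s) (hsk : s ≤ 8 * k) (hb : b ≤ B)
    {θ : ℝ} {j : ℕ} {A : Finset (Fin s → Fin (b + 1))} (hA : Sep k θ j A)
    (c0 : Fin s → Fin (b + 1))
    (hF : ∀ c ∈ A, Sm (pc c - pc c0) θ (sc k (j + 1)) (Real.exp (-(k : ℝ)))) :
    (A.card : ℝ) ≤ K0 k := by
  classical
  by_contra hcon
  push Not at hcon
  have heta := eta_pos hn
  have hek : 0 < Real.exp (-(k:ℝ)) := Real.exp_pos _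
  have hε : 0 < Real.exp (-(k:ℝ)) * eta k := by positivity
  have hD : (1:ℝ) ≤ DD k := by exact_mod_cast hn.D1
  have h2 : (1:ℝ) ≤ 1 / eta k := by
    have : eta k ≤ 1 := by
      unfold eta
      rw [div_le_one (by positivity)]
      have : (1:ℝ) ≤ (8 * (DD k : ℝ)) ^ (DD k) := one_le_pow₀ (by linarith)
      linarith
    rw [le_div_iff₀ heta]; linarith
  have hsc := sc_pos k (j + 1)
  obtain ⟨c, c', hne, hlt⟩ := box (β := A) (ι := Fin (DD k))
    (fun c i => ev (pc (c : Fin s → Fin (b + 1)) - pc c0)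
      (zpt (θ + nd (DD k) (sc k (j + 1)) i)) / ((Real.exp (-(k:ℝ)) * eta k : ℝ) : ℂ))
    (fun _ => 1 / eta k) (fun _ => h2)
    (by
      intro c i
      rw [norm_div, Complex.norm_real, Real.norm_of_nonneg hε.le]
      have h3 := hF c.1 c.2 _ (abs_nd_le hsc.le i)
      rw [div_le_div_iff₀ hε heta]
      calc ‖ev (pc (c : Fin s → Fin (b + 1)) - pc c0)
            (zpt (θ + nd (DD k) (sc k (j + 1)) i))‖ * eta k
          ≤ Real.exp (-(k:ℝ)) * eta k := by gcongr
        _ = 1 * (Real.exp (-(k:ℝ)) * eta k) := (one_mul _).symm)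
    (by
      rw [Finset.prod_const, Finset.card_univ, Fintype.card_fin, Fintype.card_coe]
      exact hcon)
  have hne' : (c : Fin s → Fin (b + 1)) ≠ c' := fun h => hne (Subtype.ext h)
  apply hA c c.2 c' c'.2 hne'
  apply small_of_nodes hn (pc_sub_adm hs hsk hb _ _)
  intro i
  have h4 := hlt i
  rw [← sub_div, norm_div, Complex.norm_real, Real.norm_of_nonneg hε.le, div_lt_one hε] at h4
  have h5 : ev (pc (c : Fin s → Fin (b + 1)) - pc c0)
      (zpt (θ + nd (DD k) (sc k (j + 1)) i)) - ev (pc (c' : Fin s → Fin (b + 1)) - pc c0)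
      (zpt (θ + nd (DD k) (sc k (j + 1)) i)) = ev (pc (c : Fin s → Fin (b + 1)) - pc (c' : Fin s → Fin (b + 1)))
      (zpt (θ + nd (DD k) (sc k (j + 1)) i)) := by
    simp only [ev, map_sub]; ring
  rw [h5] at h4
  exact h4.le

lemma sep_active {s b k B : ℕ} (hn : Num k B) (hs : 0 < s) (hsk : s ≤ 8 * k) (hb : b ≤ B)
    {θ : ℝ} {j : ℕ} {A : Finset (Fin s → Fin (b + 1))} (hA : Sep k θ j A) :
    ∃ A' ⊆ A, Sep k θ (j + 1) A' ∧ (A.card : ℝ) ≤ A'.card * K0 k := by
  classical
  obtain ⟨A', hA', hmax⟩ := Finset.exists_max_image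
    (A.powerset.filter (fun A' => Sep k θ (j + 1) A')) Finset.card
    ⟨∅, by
      rw [Finset.mem_filter]
      refine ⟨Finset.empty_mem_powerset _, ?_⟩
      intro c hc; exact absurd hc (Finset.notMem_empty _)⟩
  rw [Finset.mem_filter, Finset.mem_powerset] at hA'
  refine ⟨A', hA'.1, hA'.2, ?_⟩
  have hek : 0 < Real.exp (-(k:ℝ)) := Real.exp_pos _
  -- every element of `A` is close to an element of `A'`
  have hclose : ∀ c ∈ A, ∃ c0 ∈ A', Sm (pc c - pc c0) θ (sc k (j + 1)) (Real.exp (-(k : ℝ))) := by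
    intro c hc
    by_cases hcA : c ∈ A'
    · refine ⟨c, hcA, ?_⟩
      intro x _
      rw [sub_self]
      simp only [ev, map_zero, norm_zero]
      exact hek.le
    · by_contra hno
      push Not at hno
      have h1 : insert c A' ∈ A.powerset.filter (fun A' => Sep k θ (j + 1) A') := by
        rw [Finset.mem_filter, Finset.mem_powerset]
        refine ⟨Finset.insert_subset hc hA'.1, ?_⟩
        intro x hx y hy hxy
        rw [Finset.mem_insert] at hx hy
        rcases hx with rfl | hx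
        · rcases hy with rfl | hy
          · exact absurd rfl hxy
          · exact hno y hy
        · rcases hy with rfl | hy
          · intro hsm
            apply hno x hx
            intro t ht
            have := hsm t ht
            have e1 : ev (pc y - pc x) (zpt (θ + t)) = -ev (pc x - pc y) (zpt (θ + t)) := by
              simp only [ev, map_sub]; ring
            rw [e1, norm_neg]; exact this
          · exact hA'.2 x hx y hy hxy
      have h2 := hmax _ h1
      rw [Finset.card_insert_of_notMem hcA] at h2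
      omega
  choose! f hf1 hf2 using hclose
  have hcard : A.card = ∑ c0 ∈ A', (A.filter (fun c => f c = c0)).card :=
    Finset.card_eq_sum_card_fiberwise (fun c hc => hf1 c hc)
  rw [hcard]
  push_cast
  calc ∑ c0 ∈ A', ((A.filter (fun c => f c = c0)).card : ℝ) ≤ ∑ c0 ∈ A', K0 k := by
        apply Finset.sum_le_sum
        intro c0 _
        apply fiber_bound hn hs hsk hb (θ := θ) (j := j) (c0 := c0)
        · intro x hx y hy hxy
          rw [Finset.mem_filter] at hx hy
          exact hA x hx.1 y hy.1 hxy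
        · intro c hc
          rw [Finset.mem_filter] at hc
          have := hf2 c hc.1
          rwa [hc.2] at this
    _ = A'.card * K0 k := by rw [Finset.sum_const, nsmul_eq_mul]

/-- the chain of separated sets -/
lemma sep_chain {s b k B : ℕ} (hn : Num k B) (hs : 0 < s) (hsk : s ≤ 8 * k) (hb : b ≤ B)
    {θ : ℝ} {A : Finset (Fin s → Fin (b + 1))} (hA : Sep k θ 0 A) (n : ℕ) :
    ∃ A' : Finset (Fin s → Fin (b + 1)), ∃ T : Finset ℕ, (∀ j ∈ T, j < n) ∧
      (∀ j ∈ T, Act k B θ j) ∧ Sep k θ n A' ∧ (A.card : ℝ) ≤ A'.card * K0 k ^ T.card := by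
  classical
  induction n with
  | zero => exact ⟨A, ∅, by simp, by simp, hA, by simp⟩
  | succ n ih =>
    obtain ⟨A', T, hT1, hT2, hS, hc⟩ := ih
    by_cases hact : Act k B θ n
    · obtain ⟨A'', _, hS'', hc''⟩ := sep_active hn hs hsk hb hS
      have hnT : n ∉ T := fun h => absurd (hT1 n h) (lt_irrefl _)
      refine ⟨A'', insert n T, ?_, ?_, hS'', ?_⟩
      · intro j hj
        rw [Finset.mem_insert] at hj
        rcases hj with rfl | hj
        · omega
        · have := hT1 j hj; omega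
      · intro j hj
        rw [Finset.mem_insert] at hj
        rcases hj with rfl | hj
        · exact hact
        · exact hT2 j hj
      · rw [Finset.card_insert_of_notMem hnT, pow_succ]
        have h1 := K0_ge_one hn
        calc (A.card : ℝ) ≤ A'.card * K0 k ^ T.card := hc
          _ ≤ (A''.card * K0 k) * K0 k ^ T.card := by gcongr
          _ = A''.card * (K0 k ^ T.card * K0 k) := by ring
    · exact ⟨A', T, fun j hj => by have := hT1 j hj; omega, hT2,
        sep_inactive hs hsk hb hact hS, hc⟩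

/-- the size of a separated set at the last scale -/
lemma sep_last {s b k B : ℕ} (hn : Num k B) (hB : 1 ≤ B) (hs : 0 < s) (hsk : s ≤ 8 * k)
    (hb : b ≤ B)
    (hlast : ((8 * k : ℕ) : ℝ) * (((8 * k : ℕ) : ℝ) * B * (((8 * k : ℕ) : ℝ) * sc k (4 * k)))
      ≤ Real.exp (-(k : ℝ)) / 2) {θ : ℝ} {A : Finset (Fin s → Fin (b + 1))}
    (hA : Sep k θ (4 * k) A) :
    (A.card : ℝ) ≤ 49 * (16 * k * B / Real.exp (-(k : ℝ))) ^ 2 := by
  classical
  by_contra hcon
  push Not at hcon
  have hek : 0 < Real.exp (-(k:ℝ)) := Real.exp_pos _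
  have hek1 : Real.exp (-(k:ℝ)) ≤ 1 := by
    rw [Real.exp_le_one_iff]; linarith [hn.k100]
  have hε : 0 < Real.exp (-(k:ℝ)) / 2 := by positivity
  have hk := hn.k100
  have hBR : (1:ℝ) ≤ B := by exact_mod_cast hB
  have hco : ∀ (c : Fin s → Fin (b + 1)) i, |((pc c).coeff i : ℝ)| ≤ B := by
    intro c i
    unfold pc
    rw [mkPoly_coeff]
    split_ifs with h
    · have h1 : (c ⟨i, h⟩ : ℕ) ≤ B := by have := (c ⟨i, h⟩).2; omega
      rw [abs_of_nonneg (by positivity)]
      exact_mod_cast h1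
    · simp
  obtain ⟨c, c', hne, hlt⟩ := box (β := A) (ι := Unit)
    (fun c _ => ev (pc (c : Fin s → Fin (b + 1))) (zpt θ) / ((Real.exp (-(k:ℝ)) / 2 : ℝ) : ℂ))
    (fun _ => 16 * k * B / Real.exp (-(k : ℝ)))
    (by
      intro _
      rw [le_div_iff₀ hek]
      nlinarith)
    (by
      intro c _
      rw [norm_div, Complex.norm_real, Real.norm_of_nonneg hε.le]
      have h1 := ev_bound (F := pc (c : Fin s → Fin (b + 1))) (N := s)
        (by unfold pc; exact mkPoly_natDegree_lt hs _) (hco c) (zpt θ)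
      rw [norm_zpt, max_self, one_pow, mul_one] at h1
      rw [div_le_div_iff₀ hε hek]
      have h2 : (s:ℝ) ≤ 8 * k := by exact_mod_cast hsk
      calc ‖ev (pc (c : Fin s → Fin (b + 1))) (zpt θ)‖ * Real.exp (-(k:ℝ))
          ≤ (s * B) * Real.exp (-(k:ℝ)) := by gcongr
        _ ≤ (8 * k * B) * Real.exp (-(k:ℝ)) := by gcongr
        _ = 16 * k * B * (Real.exp (-(k:ℝ)) / 2) := by ring)
    (by
      rw [Fintype.card_coe]
      simpa using hcon)
  have hne' : (c : Fin s → Fin (b + 1)) ≠ c' := fun h => hne (Subtype.ext h)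
  apply hA c c.2 c' c'.2 hne'
  apply small_of_center hn hlast (pc_sub_adm hs hsk hb _ _)
  have h4 := hlt ()
  rw [← sub_div, norm_div, Complex.norm_real, Real.norm_of_nonneg hε.le, div_lt_one hε] at h4
  have h5 : ev (pc (c : Fin s → Fin (b + 1))) (zpt θ) - ev (pc (c' : Fin s → Fin (b + 1))) (zpt θ)
      = ev (pc (c : Fin s → Fin (b + 1)) - pc (c' : Fin s → Fin (b + 1))) (zpt θ) := by
    simp only [ev, map_sub]
  rw [h5] at h4
  exact h4.le

lemma eventually_last (B : ℕ) (hB : 1 ≤ B) : ∀ᶠ k : ℕ in atTop,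
    ((8 * k : ℕ) : ℝ) * (((8 * k : ℕ) : ℝ) * B * (((8 * k : ℕ) : ℝ) * sc k (4 * k)))
      ≤ Real.exp (-(k : ℝ)) / 2 := by
  filter_upwards [eventually_num B hB] with k hn
  have hk := hn.k100
  have hkpos : (0:ℝ) < k := by linarith
  have hBR : (1:ℝ) ≤ B := by exact_mod_cast hB
  have hlB : 0 ≤ Real.log B := Real.log_nonneg hBR
  have hL := hn.L3
  have h13 := hn.big13
  have hlm := hn.logm
  have hL1 : (LL k : ℝ) ≤ (LL k : ℝ) ^ 13 := by
    calc (LL k : ℝ) = (LL k : ℝ) ^ 1 := (pow_one _).symm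
      _ ≤ _ := pow_le_pow_right₀ (by linarith) (by norm_num)
  have hL13 : (1:ℝ) ≤ (LL k : ℝ) ^ 13 := one_le_pow₀ (by linarith)
  have hBl : Real.log B ≤ Real.log B * (LL k : ℝ) ^ 13 := by nlinarith
  have l2' : 0.69 ≤ Real.log 2 := by linarith [Real.log_two_gt_d9]
  have l2 : Real.log 2 ≤ 0.7 := by linarith [Real.log_two_lt_d9]
  have hs : sc k (4 * k) ≤ (1 / 2 : ℝ) ^ (4 * k) := by
    unfold sc
    exact pow_le_pow_of_le_one (by norm_num) (by norm_num) (Nat.le_add_left _ _)
  have hs0 := sc_pos k (4 * k)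
  have h1 : ((8 * k : ℕ) : ℝ) * (((8 * k : ℕ) : ℝ) * B * (((8 * k : ℕ) : ℝ) * sc k (4 * k)))
      ≤ (8 * (k:ℝ)) * ((8 * k) * B * ((8 * k) * (1 / 2 : ℝ) ^ (4 * k))) := by
    push_cast
    gcongr
  refine h1.trans ?_
  have hpos : (0:ℝ) < (8 * (k:ℝ)) * ((8 * k) * B * ((8 * k) * (1 / 2 : ℝ) ^ (4 * k))) := by
    positivity
  rw [← Real.log_le_log_iff hpos (by positivity), Real.log_div (by positivity) (by norm_num),
    Real.log_exp]
  have hX : (0:ℝ) < 8 * (k:ℝ) := by positivity
  have e1 : ∀ x : ℝ, 0 < x → Real.log (x * (x * B * (x * (1 / 2 : ℝ) ^ (4 * k))))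
      = 3 * Real.log x + Real.log B - 4 * k * Real.log 2 := by
    intro x hx
    rw [Real.log_mul (by positivity) (by positivity), Real.log_mul (by positivity) (by positivity),
      Real.log_mul (by positivity) (by positivity), Real.log_mul (by positivity) (by positivity),
      Real.log_pow, one_div, Real.log_inv]
    push_cast
    ring
  rw [e1 _ hX]
  nlinarith

theorem PK : Stmt_PK := by
  intro B hB
  filter_upwards [eventually_num B hB, eventually_last B hB, eventually_le_LL 20000]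
    with k hn hlast hL' θ s b hsk hb1 hb hbig hfew
  have hk := hn.k100
  have hkpos : (0:ℝ) < k := by linarith
  have hs : 0 < s := by
    rcases Nat.eq_zero_or_pos s with h | h
    · rw [h, pow_zero] at hbig
      have := Real.add_one_le_exp (3 * (k:ℝ))
      linarith
    · exact h
  by_contra hno
  push Not at hno
  have hA : Sep k θ 0 (Finset.univ : Finset (Fin s → Fin (b + 1))) := by
    intro c _ c' _ hne
    exact hno _ (pc_sub_ne_zero hne) (pc_sub_natDegree hs c c') (pc_sub_coeff c c')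
  obtain ⟨A', T, hT1, hT2, hS, hc⟩ := sep_chain hn hs hsk hb hA (4 * k)
  have hTc := hfew T hT1 hT2
  have hA' := sep_last hn hB hs hsk hb hlast hS
  rw [Finset.card_univ, Fintype.card_fun, Fintype.card_fin, Fintype.card_fin] at hc
  push_cast at hc
  have hK1 := K0_ge_one hn
  have hek : 0 < Real.exp (-(k:ℝ)) := Real.exp_pos _
  have hBR : (1:ℝ) ≤ B := by exact_mod_cast hB
  have hlB : 0 ≤ Real.log B := Real.log_nonneg hBR
  have hchain : Real.exp (3 * (k:ℝ)) <
      49 * (16 * k * B / Real.exp (-(k : ℝ))) ^ 2 * K0 k ^ T.card := by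
    calc Real.exp (3 * (k:ℝ)) < ((b:ℝ) + 1) ^ s := hbig
      _ ≤ A'.card * K0 k ^ T.card := hc
      _ ≤ _ := by gcongr
  have hD : (1:ℝ) ≤ DD k := by exact_mod_cast hn.D1
  have hetapos := eta_pos hn
  have hlog := Real.log_lt_log (Real.exp_pos _) hchain
  rw [Real.log_exp, Real.log_mul (by positivity) (by positivity),
    Real.log_mul (by norm_num) (by positivity), Real.log_pow,
    Real.log_div (by positivity) (by positivity), Real.log_exp,
    Real.log_mul (by positivity) (by positivity), Real.log_mul (by positivity) (by positivity),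
    Real.log_pow] at hlog
  have hlK : Real.log (K0 k) = DD k * (Real.log 49 + 2 *
      (Real.log 4 + DD k * Real.log (8 * (DD k : ℝ)))) := by
    unfold K0 eta
    rw [Real.log_pow, Real.log_mul (by norm_num) (by positivity), Real.log_pow, one_div_one_div,
      Real.log_mul (by norm_num) (by positivity), Real.log_pow]
    push_cast
    ring
  have l49 := log49
  have l2' : 0.69 ≤ Real.log 2 := by linarith [Real.log_two_gt_d9]
  have l2 : Real.log 2 ≤ 0.7 := by linarith [Real.log_two_lt_d9]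
  have l4 : Real.log 4 = 2 * Real.log 2 := by
    rw [show (4:ℝ) = 2 ^ 2 by norm_num, Real.log_pow]; norm_num
  have l16 : Real.log 16 = 4 * Real.log 2 := by
    rw [show (16:ℝ) = 2 ^ 4 by norm_num, Real.log_pow]; norm_num
  set L : ℝ := (LL k : ℝ) with hLd
  have hL : 100 ≤ L := hn.L3
  have hL0 : 0 < L := by linarith
  have hDD := DD_cast k
  rw [← hLd] at hDD
  have hlD := hn.logD
  rw [← hLd] at hlD
  have hlD0 : 0 ≤ Real.log (8 * (DD k : ℝ)) := Real.log_nonneg (by linarith)
  have h12 : (1:ℝ) ≤ L ^ 12 := one_le_pow₀ (by linarith)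
  -- `log K0 ≤ 64 L ^ 25 * ...`
  have hlK2 : Real.log (K0 k) ≤ 64 * L ^ 25 := by
    rw [hlK, hDD, l4]
    rw [hDD] at hlD hlD0
    have e1 : 4 * L ^ 12 * Real.log (8 * (4 * L ^ 12)) ≤ 4 * L ^ 13 := by
      calc 4 * L ^ 12 * Real.log (8 * (4 * L ^ 12)) ≤ 4 * L ^ 12 * L := by gcongr
        _ = 4 * L ^ 13 := by ring
    have e2 : (1:ℝ) ≤ L ^ 13 := one_le_pow₀ (by linarith)
    have e2' : 100 * L ^ 12 ≤ L ^ 13 := by
      calc 100 * L ^ 12 ≤ L * L ^ 12 := by gcongr
        _ = L ^ 13 := by ring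
    calc 4 * L ^ 12 * (Real.log 49 + 2 * (2 * Real.log 2 +
          4 * L ^ 12 * Real.log (8 * (4 * L ^ 12))))
        ≤ 4 * L ^ 12 * (4 + 2 * (2 * 0.7 + 4 * L ^ 13)) := by gcongr
      _ ≤ 4 * L ^ 12 * (16 * L ^ 13) := by
          gcongr
          linarith
      _ = 64 * L ^ 25 := by ring
  have hTK : (T.card : ℝ) * Real.log (K0 k) ≤ k / 4 := by
    have e1 : (T.card : ℝ) * Real.log (K0 k) ≤ (T.card : ℝ) * (64 * L ^ 25) := by gcongr
    have e2 : (T.card : ℝ) * (64 * L ^ 25) * L = 64 * ((T.card : ℝ) * L ^ 26) := by ring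
    have e3 : (T.card : ℝ) * (64 * L ^ 25) * L ≤ 64 * k := by
      rw [e2]; gcongr
    have e4 : (T.card : ℝ) * (64 * L ^ 25) ≤ k / 4 := by
      by_contra hcc
      push Not at hcc
      have e5 : k / 4 * L < (T.card : ℝ) * (64 * L ^ 25) * L := by gcongr
      have e6 : k / 4 * 400 ≤ k / 4 * L := by
        gcongr
        linarith
      linarith
    linarith
  have hlm : Real.log k ≤ L := log_le_LL k
  have h13 := hn.big13
  rw [← hLd] at h13
  have hL13 : (1:ℝ) ≤ L ^ 13 := one_le_pow₀ (by linarith)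
  have hL1 : L ≤ L ^ 13 := by
    calc L = L ^ 1 := (pow_one _).symm
      _ ≤ _ := pow_le_pow_right₀ (by linarith) (by norm_num)
  have hBl : Real.log B ≤ Real.log B * L ^ 13 := by nlinarith
  push_cast at hlog
  rw [l16] at hlog
  nlinarith

end Pool.Agent.Work.MP_4c4335_nt_helper98
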