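import Mathlib
import Pool.Agent.Work.MP_4c4335_nt.Ae
import Pool.Agent.Work.MP_4c4335_nt_helper98.PK
import Pool.Agent.Work.MP_4c4335_nt_helper98.IfFin

/-!
# Almost every angle: all windows are hit
-/

namespace Pool.Agent.Work.MP_4c4335_nt_helper98

open Finset Polynomial Filter Real MeasureTheory
open Pool.Agent.Work.MP_4c4335_nt

/-- the number of generations lost in a hole -/
noncomputable def bb (k : ℕ) : ℕ := Nat.clog 2 (32 * (DD k) ^ 2)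

/-- the part of the gap set which has to be small -/
def SG (k B : ℕ) (c : ℝ) : Set ℝ := {θ | θ ∈ Set.Icc (0:ℝ) 7 ∧ DioZ c (zpt θ) ∧ θ ∈ GS k B}

lemma bb_le {k B : ℕ} (hn : Num k B) : (2:ℝ) ^ (bb k) ≤ 64 * (DD k : ℝ) ^ 2 := by
  have hD := hn.D1
  have h1 : 2 ≤ 32 * (DD k) ^ 2 := by nlinarith
  have h2 : bb k ≠ 0 := by
    unfold bb
    have := Nat.clog_pos (b := 2) (by norm_num) h1
    omega
  obtain ⟨n, hn'⟩ := Nat.exists_eq_succ_of_ne_zero h2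
  have h3 : 2 ^ n < 32 * (DD k) ^ 2 := by
    have := Nat.pow_pred_clog_lt_self (b := 2) (by norm_num) (x := 32 * (DD k) ^ 2) (by omega)
    unfold bb at hn'
    rw [hn'] at this
    simpa using this
  rw [hn', Nat.succ_eq_add_one, pow_succ]
  have h4 : ((2 ^ n : ℕ) : ℝ) < ((32 * (DD k) ^ 2 : ℕ) : ℝ) := by exact_mod_cast h3
  push_cast at h4
  linarith

lemma le_bb (k : ℕ) : 32 * (DD k : ℝ) ^ 2 ≤ (2:ℝ) ^ (bb k) := by
  have := Nat.le_pow_clog (b := 2) (by norm_num) (32 * (DD k) ^ 2)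
  exact_mod_cast this

lemma volume_SG (hNF : Stmt_NF) (hCR : Stmt_CR) (hPO : Stmt_PO) {c : ℝ} (hc : 0 < c)
    (hc1 : c ≤ 1) : ∃ B : ℕ, 1 ≤ B ∧ ∀ᶠ k : ℕ in atTop,
      volume (SG k B c) ≤ ENNReal.ofReal (32 * (1 / (k:ℝ) ^ 2)) := by
  obtain ⟨B, hB1, hB⟩ := hNF c hc hc1
  refine ⟨B, hB1, ?_⟩
  filter_upwards [hB, hCR B hB1, eventually_num B hB1, PK B hB1, FL B hB1,
    eventually_LL_pow_le (2 ^ 37) 75, eventually_LL_pow_le 3 12]
    with k hNFk hCRk hn hPKk hFLk hbig h12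
  have hk := hn.k100
  have hkpos : (0:ℝ) < k := by linarith
  set L : ℝ := (LL k : ℝ) with hLd
  have hL : 100 ≤ L := hn.L3
  have hL0 : 0 < L := by linarith
  set a : ℕ := ⌈(k:ℝ) / L ^ 26⌉₊ with ha
  have hD : (1:ℝ) ≤ DD k := by exact_mod_cast hn.D1
  have hr3 : 3 ≤ k / hh k := by
    rw [Nat.le_div_iff_mul_le hn.h1]
    have : (3:ℝ) * hh k ≤ k := by rw [hh_cast]; exact h12
    exact_mod_cast this
  have hpo := hPO (SG k B c) (k / hh k) (4 * k) (bb k) a (fun θ hθ => hθ.1) hr3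
    (by
      intro θ hθ
      obtain ⟨s, b, hs, hb1, hbB, hpow, hF⟩ := hNFk (zpt θ) hθ.2.1
      -- many active scales
      have hmany : ∃ T : Finset ℕ, (∀ j ∈ T, j < 4 * k) ∧ (∀ j ∈ T, Act k B θ j) ∧
          (k:ℝ) < (T.card : ℝ) * L ^ 26 := by
        by_contra hno
        push Not at hno
        obtain ⟨F, hF0, hFd, hFc, hFs⟩ := hPKk θ s b hs hb1 hbB hpow hno
        obtain ⟨i, hi, hlt⟩ := hF F hF0 hFd hFc
        have hadm : Adm k B F := ⟨lt_of_lt_of_le hFd hs,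
          fun i => (hFc i).trans (by exact_mod_cast hbB)⟩
        exact absurd (hFLk θ F hadm hFs i hi) (not_le.mpr hlt)
      obtain ⟨T, hT1, hT2, hT3⟩ := hmany
      refine ⟨T, ?_, hT1, ?_⟩
      · rw [ha, Nat.ceil_le, div_le_iff₀ (by positivity)]
        exact hT3.le
      · intro j hj
        obtain ⟨α, β, h1, h2, h3, h4⟩ := hCRk θ hθ.2.2 j (hT2 j hj)
        refine ⟨α, β, h1, h2, le_trans ?_ h3, fun x hx1 hx2 hx3 => h4 x hx1 hx2 hx3.2.2⟩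
        have e1 : (1 / 2 : ℝ) ^ (k / hh k + j + bb k) = sc k j * (1 / 2 : ℝ) ^ (bb k) := by
          rw [pow_add]; rfl
        have e2 : (1 / 2 : ℝ) ^ (bb k) ≤ 1 / (32 * (DD k : ℝ) ^ 2) := by
          rw [one_div_pow]
          exact one_div_le_one_div_of_le (by positivity) (le_bb k)
        calc (1 / 2 : ℝ) ^ (k / hh k + j + bb k) = sc k j * (1 / 2 : ℝ) ^ (bb k) := e1
          _ ≤ sc k j * (1 / (32 * (DD k : ℝ) ^ 2)) :=
              mul_le_mul_of_nonneg_left e2 (sc_pos k j).le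
          _ = sc k j / (32 * (DD k : ℝ) ^ 2) := by rw [mul_one_div])
  refine hpo.trans (ENNReal.ofReal_le_ofReal ?_)
  have h2b := bb_le hn
  have hDD := DD_cast k
  rw [← hLd] at hDD
  have hden : ((bb k : ℝ) + 8) * 2 ^ (bb k + 8) ≤ 2 ^ 36 * L ^ 48 := by
    have e1 : (bb k : ℝ) + 8 ≤ 2 ^ (bb k + 8) := by
      have : bb k + 8 < 2 ^ (bb k + 8) := Nat.lt_two_pow_self
      have h' : ((bb k + 8 : ℕ) : ℝ) < ((2 ^ (bb k + 8) : ℕ) : ℝ) := by exact_mod_cast this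
      push_cast at h'
      exact h'.le
    have e2 : (2:ℝ) ^ (bb k + 8) ≤ 2 ^ 18 * L ^ 24 := by
      rw [pow_add]
      calc (2:ℝ) ^ bb k * 2 ^ 8 ≤ (64 * (DD k : ℝ) ^ 2) * 2 ^ 8 := by gcongr
        _ = 2 ^ 18 * L ^ 24 := by rw [hDD]; ring
    calc ((bb k : ℝ) + 8) * 2 ^ (bb k + 8) ≤ 2 ^ (bb k + 8) * 2 ^ (bb k + 8) := by gcongr
      _ ≤ (2 ^ 18 * L ^ 24) * (2 ^ 18 * L ^ 24) := by gcongr
      _ = 2 ^ 36 * L ^ 48 := by ring
  have hapos : (k:ℝ) / L ^ 26 ≤ a := Nat.le_ceil _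
  have hexp : 2 * Real.log k ≤ (a:ℝ) / (((bb k : ℝ) + 8) * 2 ^ (bb k + 8)) := by
    rw [le_div_iff₀ (by positivity)]
    refine le_trans ?_ hapos
    rw [le_div_iff₀ (by positivity)]
    have hlog : Real.log k ≤ L := log_le_LL k
    have hlog0 : 0 ≤ Real.log k := Real.log_nonneg (by linarith)
    calc 2 * Real.log k * (((bb k : ℝ) + 8) * 2 ^ (bb k + 8)) * L ^ 26
        ≤ 2 * L * (2 ^ 36 * L ^ 48) * L ^ 26 := by gcongr
      _ = 2 ^ 37 * L ^ 75 := by ring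
      _ ≤ k := hbig
  have h3 : Real.exp (-((a:ℝ) / (((bb k : ℝ) + 8) * 2 ^ (bb k + 8)))) ≤ 1 / (k:ℝ) ^ 2 := by
    have e1 : (1:ℝ) / (k:ℝ) ^ 2 = Real.exp (-(2 * Real.log k)) := by
      rw [Real.exp_neg, show 2 * Real.log k = Real.log ((k:ℝ) ^ 2) by
        rw [Real.log_pow]; push_cast; ring, Real.exp_log (by positivity), one_div]
    rw [e1, Real.exp_le_exp]
    linarith
  gcongr

lemma ae_not_GS (hNF : Stmt_NF) (hCR : Stmt_CR) (hPO : Stmt_PO) {c : ℝ} (hc : 0 < c)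
    (hc1 : c ≤ 1) : ∃ B : ℕ, 1 ≤ B ∧
    ∀ᵐ θ : ℝ, θ ∈ Set.Icc (0:ℝ) 7 → DioZ c (zpt θ) → ∀ᶠ k : ℕ in atTop, θ ∉ GS k B := by
  obtain ⟨B, hB1, hB⟩ := volume_SG hNF hCR hPO hc hc1
  refine ⟨B, hB1, ?_⟩
  rw [eventually_atTop] at hB
  obtain ⟨k0, hk0⟩ := hB
  set s : ℕ → Set ℝ := fun k => if k0 ≤ k then SG k B c else ∅ with hs
  have hmeas : ∀ k, volume (s k) ≤ ENNReal.ofReal (32 * (1 / (k:ℝ) ^ 2)) := by
    intro k
    simp only [hs]
    split_ifs with h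
    · exact hk0 k h
    · simp
  have hsum : ∑' k, volume (s k) ≠ ⊤ := by
    have h1 : Summable (fun k : ℕ => 32 * (1 / (k:ℝ) ^ 2)) :=
      (Real.summable_one_div_nat_pow.mpr (by norm_num)).mul_left 32
    exact ne_top_of_le_ne_top h1.tsum_ofReal_ne_top (ENNReal.tsum_le_tsum hmeas)
  filter_upwards [ae_eventually_notMem hsum] with θ hθ h1 h2
  filter_upwards [hθ, eventually_ge_atTop k0] with k hk hkk h3
  apply hk
  simp only [hs]
  rw [if_pos hkk]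
  exact ⟨h1, h2, h3⟩

theorem AE (hNF : Stmt_NF) (hCR : Stmt_CR) (hPO : Stmt_PO) : Stmt_AE := by
  have h1 : ∀ j : ℕ, ∃ B : ℕ, 1 ≤ B ∧ ∀ᵐ θ : ℝ, θ ∈ Set.Icc (0:ℝ) 7 →
      DioZ (1 / ((j:ℝ) + 1)) (zpt θ) → ∀ᶠ k : ℕ in atTop, θ ∉ GS k B := by
    intro j
    apply ae_not_GS hNF hCR hPO (by positivity)
    rw [div_le_one (by positivity)]
    linarith [Nat.cast_nonneg (α := ℝ) j]
  choose B hB1 hB using h1
  have h2 := ae_all_iff.mpr hB
  unfold Stmt_AE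
  filter_upwards [h2, ae_dio] with θ h3 h4 hmem
  obtain ⟨c, hc, hc1, hdio⟩ := h4
  obtain ⟨j, hj⟩ := exists_nat_one_div_lt hc
  have hdio' : DioZ (1 / ((j:ℝ) + 1)) (zpt θ) := hdio.mono hj.le
  refine ⟨c, hc, hdio, B j, hB1 j, ?_⟩
  filter_upwards [h3 j hmem hdio'] with k hk
  simp only [GS, Set.mem_ofPred_eq] at hk
  push Not at hk
  obtain ⟨P, hP, h5, h6⟩ := hk
  exact ⟨P, hP, h5, h6⟩

end Pool.Agent.Work.MP_4c4335_nt_helper98
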