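import Mathlib
import Pool.Agent.Work.MP_4c4335_nt_h67.NF
import Pool.Agent.Work.MP_4c4335_nt_h67.FIN
import Pool.Agent.Work.MP_4c4335_nt_helper47.CR
import Pool.Agent.Work.MP_4c4335_nt_helper79.POCheck
import Pool.Agent.Work.MP_4c4335_nt_helper98.AE

/-!
# The final theorem
-/

namespace Pool.Agent.Work.MP_4c4335_nt_helper98

open Pool.Agent.Work.MP_4c4335_nt MeasureTheory

theorem final : ∀ᵐ θ ∂(volume.restrict (Set.Ico (0:ℝ) (2 * Real.pi))), ∃ c : ℝ, 0 < c ∧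
    ∀ᶠ n : ℕ in Filter.atTop, Real.exp (c * n) ≤ RDPV n θ :=
  FIN (AE NF Pool.Agent.Work.MP_4c4335_nt_helper47.CR
    Pool.Agent.Work.MP_4c4335_nt_helper79.stmt_PO)

end Pool.Agent.Work.MP_4c4335_nt_helper98
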